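import Pool.Agent.N783.CF.Stm

/-!
# Project CF (helper783), part IR2: the polynomial `f / (x - θ)` is irreducible over `L`
-/

set_option autoImplicit false
set_option linter.all false

open Polynomial NumberField

namespace Pool.Agent.N130.CF

open Pool.Agent.N783.PF (Cg fF SqF IsGen rd S_INT)
open Pool.Agent.N783.CF

section aux

variable {F L : Type} [Field F] [NumberField F] [Field L] [NumberField L] [Algebra F L]

theorem tower (a : 𝓞 F) : ((algebraMap (𝓞 F) (𝓞 L) a : 𝓞 L) : L) = algebraMap F L (a : F) := rfl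

/-- evaluation at `θ` in the ring of integers -/
noncomputable def ev (t : 𝓞 L) : (𝓞 F)[X] →+* 𝓞 L := eval₂RingHom (algebraMap (𝓞 F) (𝓞 L)) t

theorem ev_coe (t : 𝓞 L) (p : (𝓞 F)[X]) : ((ev t p : 𝓞 L) : L) = aeval (t : L) (fF p) := by
  have h : (algebraMap (𝓞 L) L).comp (ev t) =
      (aeval (t : L) : F[X] →ₐ[F] L).toRingHom.comp (mapRingHom (algebraMap (𝓞 F) F)) := by
    apply Polynomial.ringHom_ext
    · intro a
      simp only [ev, RingHom.comp_apply, coe_eval₂RingHom, eval₂_C, coe_mapRingHom, map_C]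
      change algebraMap F L (a : F) = aeval (t : L) (C (a : F))
      rw [aeval_C]
    · simp only [ev, RingHom.comp_apply, coe_eval₂RingHom, eval₂_X, coe_mapRingHom, map_X]
      change (t : L) = aeval (t : L) X
      rw [aeval_X]
  exact congrArg (fun φ : (𝓞 F)[X] →+* L => φ p) h

theorem fF_map (p : (𝓞 F)[X]) : (fF p).map (algebraMap F L) =
    (p.map (algebraMap (𝓞 F) (𝓞 L))).map (algebraMap (𝓞 L) L) := by
  rw [fF, Polynomial.map_map, Polynomial.map_map]
  rfl

theorem ker_ev {g : ℕ} {f : (𝓞 F)[X]} {θ : L} (hG : IsGen g f θ) (t : 𝓞 L) (ht : (t : L) = θ)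
    (p : (𝓞 F)[X]) (hp : ev t p = 0) : f ∣ p := by
  have h1 : aeval θ (fF p) = 0 := by
    rw [← ht, ← ev_coe, hp]
    rfl
  have h2 := modByMonic_add_div p f
  have h3 : aeval θ (fF (p %ₘ f)) = 0 := by
    have h4 : aeval θ (fF (p %ₘ f + f * (p /ₘ f))) = 0 := by rw [h2]; exact h1
    rw [fF, Polynomial.map_add, Polynomial.map_mul, map_add, map_mul] at h4
    have h5 := hG.root
    rw [fF] at h5
    rw [h5, zero_mul, add_zero] at h4
    exact h4
  have hdeg : (p %ₘ f).natDegree < 2 * g + 1 := by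
    rw [← hG.deg]
    apply natDegree_modByMonic_lt _ hG.mon
    intro hf
    have := hG.deg
    rw [hf, natDegree_one] at this
    omega
  have h6 : p %ₘ f = 0 := by
    have h7 : ∑ i : Fin (2 * g + 1), (((p %ₘ f).coeff i : 𝓞 F) : F) • hG.basis i = 0 := by
      rw [← h3, aeval_eq_sum_range' (n := 2 * g + 1)
        (lt_of_le_of_lt natDegree_map_le hdeg), Finset.sum_range]
      refine Finset.sum_congr rfl fun i _ => ?_
      rw [hG.basis_apply, coeff_map]
    have h8 := Fintype.linearIndependent_iff.1 hG.basis.linearIndependent _ h7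
    ext j
    by_cases hj : j < 2 * g + 1
    · have h9 : (((p %ₘ f).coeff j : 𝓞 F) : F) = 0 := h8 ⟨j, hj⟩
      rw [coeff_zero]
      exact congrArg _ (RingOfIntegers.ext h9)
    · rw [coeff_zero, coeff_eq_zero_of_natDegree_lt (by omega)]
  rw [h6, zero_add] at h2
  exact ⟨_, h2.symm⟩

end aux

theorem t_IR2 : S_INT → S_IR2 := by
  intro hI g F L _ _ _ _ _ f θ hg hG hS hT
  obtain ⟨𝔮, h, hq, -, hm, hd, hirr, hC⟩ := hT
  have hq' := hq
  -- the integer `θ`
  have hint : IsIntegral ℤ θ := by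
    rw [hI g F L f θ hG hS θ]
    refine ⟨fun i => if (i : ℕ) = 1 then 1 else 0, ?_⟩
    rw [Finset.sum_eq_single (⟨1, by omega⟩ : Fin (2 * g + 1))]
    · simp
    · intro i _ hi
      have : (i : ℕ) ≠ 1 := fun h => hi (Fin.ext h)
      simp [this]
    · intro h
      exact absurd (Finset.mem_univ _) h
  let t : 𝓞 L := ⟨θ, hint⟩
  have ht : (t : L) = θ := rfl
  have hsurj : Function.Surjective (ev (F := F) t) := by
    intro x
    obtain ⟨v, hv⟩ := (hI g F L f θ hG hS (x : L)).1 x.2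
    refine ⟨∑ i, C (v i) * X ^ (i : ℕ), ?_⟩
    apply RingOfIntegers.ext
    change ((ev t _ : 𝓞 L) : L) = (x : L)
    rw [ev_coe, hv, fF, Polynomial.map_sum, map_sum]
    refine Finset.sum_congr rfl fun i _ => ?_
    rw [Polynomial.map_mul, Polynomial.map_pow, map_C, map_X, map_mul, map_pow, aeval_C, aeval_X,
      ht]
  -- reduction
  let ρ : (𝓞 F)[X] →+* 𝓞 F ⧸ 𝔮 := eval₂RingHom (Ideal.Quotient.mk 𝔮) 0
  have hf0 : ρ f = 0 := by
    change eval₂ (Ideal.Quotient.mk 𝔮) 0 f = 0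
    rw [eval₂_at_zero, Ideal.Quotient.eq_zero_iff_mem]
    have h1 := hC 0
    rw [mul_coeff_zero, coeff_X_zero, zero_mul, sub_zero] at h1
    exact h1
  have hker : RingHom.ker (ev (F := F) t) ≤ RingHom.ker ρ := by
    intro p hp
    obtain ⟨c, rfl⟩ := ker_ev hG t ht p hp
    rw [RingHom.mem_ker, map_mul, hf0, zero_mul]
  obtain ⟨π, hπ⟩ : ∃ π : 𝓞 L →+* 𝓞 F ⧸ 𝔮, ∀ p, π (ev t p) = ρ p :=
    ⟨RingHom.liftOfSurjective (ev (F := F) t) hsurj ⟨ρ, hker⟩, fun p =>
      RingHom.liftOfRightInverse_comp_apply _ _ _ ⟨ρ, hker⟩ p⟩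
  have hπC : ∀ a : 𝓞 F, π (algebraMap (𝓞 F) (𝓞 L) a) = Ideal.Quotient.mk 𝔮 a := by
    intro a
    have h1 := hπ (C a)
    change π (eval₂ _ _ (C a)) = eval₂ _ _ (C a) at h1
    rwa [eval₂_C, eval₂_C] at h1
  have hπX : π t = 0 := by
    have h1 := hπ X
    change π (eval₂ _ _ X) = eval₂ _ _ X at h1
    rwa [eval₂_X, eval₂_X] at h1
  -- the factor
  have hroot : (f.map (algebraMap (𝓞 F) (𝓞 L))).IsRoot t := by
    rw [IsRoot, eval_map]
    apply RingOfIntegers.ext
    have h1 := ev_coe t f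
    rw [ht, hG.root] at h1
    exact h1
  obtain ⟨k, hk⟩ := dvd_iff_isRoot.2 hroot
  have hkm : k.Monic := by
    refine (monic_X_sub_C t).of_mul_monic_left ?_
    rw [← hk]
    exact hG.mon.map _
  have hkπ : k.map π = rd 𝔮 h := by
    have h1 : (f.map (algebraMap (𝓞 F) (𝓞 L))).map π = X * rd 𝔮 h := by
      rw [Polynomial.map_map]
      have h2 : π.comp (algebraMap (𝓞 F) (𝓞 L)) = Ideal.Quotient.mk 𝔮 := RingHom.ext hπC
      rw [h2]
      have h3 : f.map (Ideal.Quotient.mk 𝔮) = (X * h).map (Ideal.Quotient.mk 𝔮) := by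
        ext j
        rw [coeff_map, coeff_map, Ideal.Quotient.eq]
        exact hC j
      rw [h3, Polynomial.map_mul, map_X]
    rw [hk, Polynomial.map_mul, Polynomial.map_sub, map_X, map_C, hπX, C_0, sub_zero] at h1
    exact mul_left_cancel₀ X_ne_zero h1
  have hkirr : Irreducible k := by
    refine hkm.irreducible_of_irreducible_map π k ?_
    rw [hkπ]
    exact hirr
  refine ⟨k.map (algebraMap (𝓞 L) L), ?_, ?_⟩
  · rw [fF_map, hk, Polynomial.map_mul, Polynomial.map_sub, map_X, map_C]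
    rfl
  · exact (hkm.irreducible_iff_irreducible_map_fraction_map (K := L)).1 hkirr

end Pool.Agent.N130.CF
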