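import Pool.Agent.N783.CF.Stm2
import Pool.Agent.TH626.J3090
import Pool.Agent.TH263.J3086
import Pool.Agent.TH914.J3087
import Pool.Agent.TH938.J3088
import Pool.Agent.TH370.J3089
import Pool.Agent.TH858.J3094
import Pool.Agent.TH293.J3093
import Pool.Agent.TH89.J3091
import Pool.Agent.TH55.J3092

/-!
# Project CF (helper783), part TWO2: many quadratic extensions

From the asymptotic count of quadratic extensions in the project ML (helper444).
-/

set_option autoImplicit false

open NumberField Filter Topology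

namespace Pool.Agent.N130.CF

open Pool.Agent.N783.CF Pool.Agent.TH444.ML

theorem quadUnif : QuadUnif :=
  Pool.Agent.TH293.J3093.quadUnif Pool.Agent.TH263.J3086.discQuad Pool.Agent.TH914.J3087.kumP
    Pool.Agent.TH89.J3091.idealUnif Pool.Agent.TH55.J3092.princUnif

theorem quadPos : QuadPos :=
  Pool.Agent.TH858.J3094.quadPos Pool.Agent.TH263.J3086.discQuad Pool.Agent.TH914.J3087.kumP
    quadUnif

theorem quadLim : QuadLim :=
  Pool.Agent.TH626.J3090.quadLim Pool.Agent.TH263.J3086.discQuad Pool.Agent.TH914.J3087.kumP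
    Pool.Agent.TH938.J3088.coneFacts
    (Pool.Agent.TH370.J3089.coneSqf Pool.Agent.TH938.J3088.coneFacts
      Pool.Agent.TH938.J3088.coneDens)

theorem fields_eq (K : Type) [Field K] [NumberField K] (X : ℝ) :
    Fields K 2 X = QS K (AlgebraicClosure K) (X / ((discr K : ℤ) : ℝ) ^ 2) := by
  have hD : ((discr K : ℤ) : ℝ) ^ 2 ≠ 0 := pow_ne_zero 2 (by exact_mod_cast discr_ne_zero K)
  unfold Fields QS
  rw [div_mul_cancel₀ _ hD]

/-- the number of quadratic extensions, asymptotically -/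
theorem two_asymp (K : Type) [Field K] [NumberField K] : ∃ c : ℝ, 0 < c ∧
    Tendsto (fun X : ℝ => ((Fields K 2 X).ncard : ℝ) / X) atTop (𝓝 c) := by
  obtain ⟨c, hc⟩ := quadLim K (AlgebraicClosure K)
  have hc0 : 0 ≤ c := by
    refine ge_of_tendsto hc ?_
    filter_upwards [eventually_ge_atTop (0 : ℝ)] with Y hY
    positivity
  have hc1 : c ≠ 0 := by
    intro h
    rw [h] at hc
    exact quadPos K (AlgebraicClosure K) hc
  have hcpos : 0 < c := lt_of_le_of_ne hc0 (Ne.symm hc1)
  obtain ⟨D, hD⟩ : ∃ D : ℝ, D = ((discr K : ℤ) : ℝ) ^ 2 := ⟨_, rfl⟩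
  have hD0 : 0 < D := by
    rw [hD]
    have : ((discr K : ℤ) : ℝ) ≠ 0 := by exact_mod_cast discr_ne_zero K
    positivity
  refine ⟨c * D⁻¹, by positivity, ?_⟩
  have hsub : Tendsto (fun X : ℝ => X * D⁻¹) atTop atTop :=
    tendsto_id.atTop_mul_const (inv_pos.2 hD0)
  have h1 := (hc.comp hsub).mul_const D⁻¹
  refine h1.congr' ?_
  filter_upwards [eventually_gt_atTop (0 : ℝ)] with X hX
  rw [fields_eq K X, ← hD, div_eq_mul_inv X D]
  simp only [Function.comp]
  have : D⁻¹ ≠ 0 := (inv_pos.2 hD0).ne'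
  field_simp

theorem t_TWO2 : S_TWO2 := by
  intro K _ _
  obtain ⟨c, hc, hlim⟩ := two_asymp K
  have h := (hlim.eventually (lt_mem_nhds (by linarith : c / 2 < c))).and
    (eventually_gt_atTop (0 : ℝ))
  obtain ⟨X₀, hX₀⟩ := eventually_atTop.1 h
  refine ⟨c / 2, by positivity, X₀, fun X hX => ?_⟩
  obtain ⟨h3, h4⟩ := hX₀ X hX
  rw [lt_div_iff₀ h4] at h3
  exact h3.le

end Pool.Agent.N130.CF
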